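import Mathlib

set_option autoImplicit false

namespace Pool.Agent.Results.MP_05a6d5_al.Cex

/-- Subtractive closure of an ideal of a commutative semiring. -/
def scl {H : Type} [CommSemiring H] (I : Ideal H) : Ideal H where
  carrier := {h | ∃ i ∈ I, h + i ∈ I}
  zero_mem' := ⟨0, I.zero_mem, by simp⟩
  add_mem' := by
    rintro a b ⟨i, hi, ha⟩ ⟨j, hj, hb⟩
    exact ⟨i + j, I.add_mem hi hj, by rw [add_add_add_comm]; exact I.add_mem ha hb⟩
  smul_mem' := by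
    rintro c a ⟨i, hi, ha⟩
    exact ⟨c * i, I.mul_mem_left c hi, by rw [smul_eq_mul, ← mul_add]; exact I.mul_mem_left c ha⟩

open Polynomial

lemma odd_coeff (p : ℕ[X]) (h0 : p.coeff 0 ≠ 0) (h : p.eval₂ (Nat.castRingHom ℤ) (-1) = 0) :
    ∃ i, Odd i ∧ p.coeff i ≠ 0 := by
  by_contra hc
  push Not at hc
  rw [eval₂_eq_sum, Polynomial.sum] at h
  have : (0 : ℤ) < ∑ n ∈ p.support, (Nat.castRingHom ℤ) (p.coeff n) * (-1) ^ n := by
    refine Finset.sum_pos (fun n hn => ?_) ⟨0, mem_support_iff.mpr h0⟩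
    have hn' := mem_support_iff.mp hn
    have : Even n := Nat.not_odd_iff_even.mp fun ho => hn' (hc n ho)
    rw [this.neg_one_pow]
    simpa using Nat.pos_of_ne_zero hn'
  omega

lemma coeff_mul_ne (p q : ℕ[X]) (i j : ℕ) (hp : p.coeff i ≠ 0) (hq : q.coeff j ≠ 0) :
    (p * q).coeff (i + j) ≠ 0 := by
  rw [coeff_mul]
  intro h
  have := Finset.sum_eq_zero_iff.mp h (i, j) (by simp)
  exact mul_ne_zero hp hq this

/-- the invariant kept by sums of products -/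
def Inv (p : ℕ[X]) : Prop := p.coeff 0 ≠ 0 → ∃ i j, Odd i ∧ Odd j ∧
  p.coeff i ≠ 0 ∧ p.coeff j ≠ 0 ∧ p.coeff (i + j) ≠ 0

theorem result : ∃ (S₀ : Type) (_ : CommSemiring S₀), (1 : S₀) ≠ 0 ∧
    (∀ a b : S₀, a + b = 0 → a = 0 ∧ b = 0) ∧
    ∃ I J : Ideal (MvPolynomial (Fin 3) S₀), scl I * scl J ≠ scl (I * J) := by
  refine ⟨ℕ, inferInstance, one_ne_zero, fun a b h => by omega,
    Ideal.span {MvPolynomial.X 0 + 1}, Ideal.span {MvPolynomial.X 0 + 1}, fun h => ?_⟩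
  set x : MvPolynomial (Fin 3) ℕ := MvPolynomial.X 0 with hx
  have h1 : x ^ 4 + 4 * x + 3 ∈ scl (Ideal.span {x + 1} * Ideal.span {x + 1}) := by
    rw [Ideal.span_singleton_mul_span_singleton]
    refine ⟨(2 * x) * ((x + 1) * (x + 1)), Ideal.mem_span_singleton'.mpr ⟨_, rfl⟩,
      Ideal.mem_span_singleton'.mpr ⟨x ^ 2 + 3, by ring⟩⟩
  rw [← h] at h1
  let φ : MvPolynomial (Fin 3) ℕ →+* ℕ[X] := (MvPolynomial.aeval (fun _ => (X : ℕ[X]))).toRingHom
  have hφ : φ x = X := by simp [φ, hx]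
  let ψ : ℕ[X] →+* ℤ := eval₂RingHom (Nat.castRingHom ℤ) (-1)
  have hs : ∀ a ∈ scl (Ideal.span {x + 1}), ψ (φ a) = 0 := by
    rintro a ⟨i, hi, ha⟩
    obtain ⟨u, rfl⟩ := Ideal.mem_span_singleton'.mp hi
    obtain ⟨v, hv⟩ := Ideal.mem_span_singleton'.mp ha
    have := congrArg (fun t => ψ (φ t)) hv
    simpa [hφ, ψ] using this.symm
  have key : Inv (φ (x ^ 4 + 4 * x + 3)) := by
    refine Submodule.mul_induction_on (C := fun t => Inv (φ t)) h1 ?_ ?_
    · intro a ha b hb h0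
      rw [map_mul] at *
      rw [mul_coeff_zero] at h0
      obtain ⟨i, hi, hi'⟩ := odd_coeff _ (left_ne_zero_of_mul h0) (hs a ha)
      obtain ⟨j, hj, hj'⟩ := odd_coeff _ (right_ne_zero_of_mul h0) (hs b hb)
      exact ⟨i, j, hi, hj, by simpa using coeff_mul_ne _ _ i 0 hi' (right_ne_zero_of_mul h0),
        by simpa using coeff_mul_ne _ _ 0 j (left_ne_zero_of_mul h0) hj', coeff_mul_ne _ _ i j hi' hj'⟩
    · intro a b ha hb h0
      rw [map_add] at *
      simp only [coeff_add] at *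
      by_cases h : (φ a).coeff 0 = 0
      · obtain ⟨i, j, hi, hj, a1, a2, a3⟩ := hb (by omega)
        exact ⟨i, j, hi, hj, by omega, by omega, by omega⟩
      · obtain ⟨i, j, hi, hj, a1, a2, a3⟩ := ha h
        exact ⟨i, j, hi, hj, by omega, by omega, by omega⟩
  have e : φ (x ^ 4 + 4 * x + 3) = X ^ 4 + C 4 * X + C 3 := by
    simp [hφ, map_ofNat]
  rw [e] at key
  have hc : ∀ n, (X ^ 4 + C 4 * X + C 3 : ℕ[X]).coeff n ≠ 0 → n = 0 ∨ n = 1 ∨ n = 4 := by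
    intro n hn
    by_contra hh
    push Not at hh
    apply hn
    simp only [coeff_add, coeff_X_pow, coeff_C_mul, coeff_X, coeff_C]
    simp [hh.1, hh.2.2, Ne.symm hh.2.1]
  obtain ⟨i, j, hi, hj, a1, a2, a3⟩ := key (by simp only [coeff_add, coeff_X_pow, coeff_C_mul, coeff_X, coeff_C]; simp)
  have := hc _ a1; have := hc _ a2; have := hc _ a3
  obtain ⟨i, rfl⟩ := hi; obtain ⟨j, rfl⟩ := hj
  omega

end Pool.Agent.Results.MP_05a6d5_al.Cex
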